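import Pool.Agent.Y577.AD.Kunen

set_option autoImplicit false

/-!
# Cardinal arithmetic in the Cohen extension
-/

namespace Pool.Agent.Y577.AD.Forced

open Set Cardinal Pool.Agent.Helper669.Forcing Pool.Agent.H458R4.Cohen Pool.Agent.Y577.AD.Kunen

variable {K : Type}

theorem cardinalsPreserved (q : Fn K) : q ∈ CardinalsPreserved.{0, 0} (Fn K) := by
  intro μ ν hμν hν q1 hq1 hex
  obtain ⟨q2, hq2, R, hfun, honto⟩ := mem_fex.1 hex q1 le_rfl
  let V : μ.out → Set ν.out := fun x => {y | ∃ r ≤ q2, r ∈ meets (R x y)}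
  have hV : ∀ x, #(V x) ≤ ℵ₀ := by
    intro x
    have hch : ∀ y : V x, ∃ r ≤ q2, r ∈ meets (R x y.1) := fun y => y.2
    choose f hf1 hf2 using hch
    have hinj : ∀ i j : V x, Compat (f i) (f j) → i = j := by
      rintro i j ⟨r, hri, hrj⟩
      apply Subtype.ext
      have hr : r ∈ IsFun R := down_IsFun R _ hfun r (hri.trans (hf1 i))
      exact IsFun.unique hr (down_meets _ _ (hf2 i) r hri) (down_meets _ _ (hf2 j) r hrj)
    have hc : (Set.range f).Countable := by
      refine ccc _ ?_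
      rintro _ ⟨i, rfl⟩ _ ⟨j, rfl⟩ h
      rw [hinj i j h]
    have hfi : Function.Injective f := fun i j h => hinj i j ⟨f i, le_rfl, h ▸ le_rfl⟩
    rw [← Cardinal.mk_range_eq f hfi, Cardinal.le_aleph0_iff_set_countable]
    exact hc
  have hU : (⋃ x, V x) = Set.univ := by
    rw [Set.eq_univ_iff_forall]
    intro y
    obtain ⟨r, hr, x, h⟩ := mem_fex.1 (honto y) q2 le_rfl
    exact Set.mem_iUnion.2 ⟨x, r, hr, h⟩
  have h1 : ν ≤ μ * ℵ₀ := by
    calc ν = #(ν.out) := (Cardinal.mk_out ν).symm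
      _ = #(Set.univ : Set ν.out) := Cardinal.mk_univ.symm
      _ = #(⋃ x, V x) := by rw [hU]
      _ ≤ Cardinal.sum fun x => #(V x) := Cardinal.mk_iUnion_le_sum_mk
      _ ≤ Cardinal.sum fun _ : μ.out => ℵ₀ := Cardinal.sum_le_sum _ _ hV
      _ = μ * ℵ₀ := by rw [Cardinal.sum_const', Cardinal.mk_out]
  exact absurd h1 (not_le.2 (Cardinal.mul_lt_of_lt hν.le hμν hν))

/-- a code of a name for a subset of `M` -/
def nmM {M : Type} (c : M → ℕ → Option (Fn K)) (m : M) : Set (Fn K) := {q | ∃ j, c m j = some q}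

theorem exists_nmM {M : Type} (x : M → Set (Fn K)) :
    ∃ c : M → ℕ → Option (Fn K), ∀ m q, q ∈ meets (x m) ↔ q ∈ meets (nmM c m) := by
  classical
  have hE : ∀ m, ∃ A ⊆ {r : Fn K | r ∈ meets (x m) ∨ r ∈ fnot (meets (x m))}, A.Countable ∧
      (∀ p, ∃ a ∈ A, Compat a p) ∧ ∀ a ∈ A, ∀ b ∈ A, Compat a b → a = b := by
    intro n
    apply exists_antichain
    intro p
    by_cases hp : p ∈ meets (x n)
    · exact ⟨p, le_rfl, Or.inl hp⟩
    · obtain ⟨r, hr, hr'⟩ := exists_not_of_notMem_meets hp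
      exact ⟨r, hr, Or.inr hr'⟩
  choose A hAE hAc hApre _ using hE
  have hc : ∀ m, ∃ g : ℕ → Option (Fn K), ∀ q, (∃ j, g j = some q) ↔
      (q ∈ A m ∧ q ∈ meets (x m)) := by
    intro m
    obtain ⟨g, hg⟩ := Set.Countable.exists_eq_range
      (s := insert none (some '' {q | q ∈ A m ∧ q ∈ meets (x m)}))
      ((((hAc m).mono fun q hq => hq.1).image _).insert none) (Set.insert_nonempty _ _)
    refine ⟨g, fun q => ?_⟩
    have h1 : (∃ j, g j = some q) ↔
        some q ∈ insert none (some '' {q | q ∈ A m ∧ q ∈ meets (x m)}) := by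
      rw [hg]
      rfl
    rw [h1]
    simp
  choose c hc using hc
  refine ⟨c, fun m q => ⟨fun hq q' hq' => ?_, fun hq q' hq' => ?_⟩⟩
  · obtain ⟨a, ha, t, ht1, ht2⟩ := hApre m q'
    refine ⟨t, ht2, a, (hc m a).2 ⟨ha, ?_⟩, ht1⟩
    refine (hAE m ha).resolve_right fun h => ?_
    exact h t ht1 (down_meets _ _ hq t (ht2.trans hq'))
  · obtain ⟨r, hr, s, hs, hrs⟩ := hq q' hq'
    obtain ⟨u, hu, v, hv, huv⟩ := down_meets _ _ ((hc m s).1 hs).2 r hrs r le_rfl
    exact ⟨u, hu.trans hr, v, hv, huv⟩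

theorem powLe {M : Type} (hK : ℵ₀ < #K) (hM : ℵ₀ ≤ #M) (hpow : #K ^ #M = #K) (p : Fn K) :
    p ∈ PowLe (Fn K) M K := by
  classical
  let N := M → ℕ → Option (Fn K)
  have hN : #N ≤ #K := by
    have h1 : #N = (#(Option (Fn K)) ^ ℵ₀) ^ #M := by
      simp [N, Cardinal.mk_pi]
    have h2 : #(Option (Fn K)) ≤ #K := by
      rw [mk_option]
      exact (add_le_add (mk_Fn_le hK) (one_le_aleph0.trans hK.le)).trans (add_eq_self hK.le).le
    rw [h1, ← Cardinal.power_mul, Cardinal.aleph0_mul_eq hM]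
    exact (power_le_power_right h2).trans hpow.le
  have hne : Nonempty N := ⟨fun _ _ => none⟩
  obtain ⟨g⟩ : Nonempty (N ↪ K) := Cardinal.le_def _ _ |>.1 hN
  have hsurj : Function.Surjective (Function.invFun g) := Function.invFun_surjective g.injective
  have hd : ∀ φ ψ : Set (Fn K), Down (fiff φ ψ) := fun φ ψ => down_fand (down_fimp _ _)
    (down_fimp _ _)
  refine mem_fex_of_mem (fun i => nmM (Function.invFun g i)) ?_ ?_
  · exact down_fall fun _ => down_fex _
  · intro x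
    obtain ⟨c, hc⟩ := exists_nmM x
    obtain ⟨i, hi⟩ := hsurj c
    refine mem_fex_of_mem i (down_fall fun _ => hd _ _) fun m => ?_
    show p ∈ fiff (meets (x m)) (meets (nmM (Function.invFun g i) m))
    rw [hi]
    exact ⟨mem_fimp.2 fun q _ h => ⟨q, le_rfl, (hc m q).1 h⟩,
      mem_fimp.2 fun q _ h => ⟨q, le_rfl, (hc m q).2 h⟩⟩

theorem manyReals (p : Fn K) : p ∈ ManyReals (Fn K) K := by
  classical
  refine mem_fex_of_mem (fun k n => {q : Fn K | ((k, n), true) ∈ q.g}) ?_ ?_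
  · exact down_fall fun _ => down_fall fun _ => down_fall fun _ => down_fnot _
  · intro i j hij q hq hiff
    obtain ⟨n, hn⟩ : ∃ n : ℕ, ∀ k b, ((k, n), b) ∉ q.g := by
      obtain ⟨N, hN⟩ := (q.g.image fun y => y.1.2).finite_toSet.bddAbove
      refine ⟨N + 1, fun k b h => ?_⟩
      have h1 : N + 1 ≤ N := hN (Finset.mem_coe.2 (Finset.mem_image.2 ⟨_, h, rfl⟩))
      omega
    let r : Fn K := ⟨insert ((i, n), true) (insert ((j, n), false) q.g), by
      intro a b b' h h'
      simp only [Finset.mem_insert, Prod.mk.injEq] at h h'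
      rcases h with ⟨rfl, rfl⟩ | ⟨rfl, rfl⟩ | h <;> rcases h' with ⟨h1, h2⟩ | ⟨h1, h2⟩ | h'
      · exact h2.symm
      · exact absurd (congrArg Prod.fst h1) hij
      · exact absurd h' (hn _ _)
      · exact absurd (congrArg Prod.fst h1).symm hij
      · exact h2.symm
      · exact absurd h' (hn _ _)
      · exact absurd (h1 ▸ h) (hn _ _)
      · exact absurd (h1 ▸ h) (hn _ _)
      · exact q.fn _ _ _ h h'⟩
    have hr : r ≤ q := fun y hy => Finset.mem_insert_of_mem (Finset.mem_insert_of_mem hy)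
    have h1 : r ∈ meets {q : Fn K | ((i, n), true) ∈ q.g} :=
      meets_of_mem (Finset.mem_insert_self _ _)
    obtain ⟨s, hs, h2⟩ := mem_fimp.1 (hiff n).1 r hr h1
    obtain ⟨t, ht, u, hu, htu⟩ := h2 s le_rfl
    have h3 : ((j, n), true) ∈ t.g := htu hu
    have h4 : ((j, n), false) ∈ t.g := ht (hs (Finset.mem_insert_of_mem (Finset.mem_insert_self _ _)))
    exact absurd (t.fn _ _ _ h3 h4) (by simp)

end Pool.Agent.Y577.AD.Forced
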