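import Pool.Agent.H458R4.Cohen2

set_option autoImplicit false

/-!
# Cohen reals and chains in `P(ω)/fin`

Adding any number of Cohen reals forces that there is no strictly increasing sequence of length
`λ` of subsets of `ℕ` modulo finite sets, if `λ` is larger than the continuum of the ground
model (Kunen). If `κ ^ μ = κ`, adding `κ` Cohen reals forces `2 ^ μ ≤ κ ≤ 2 ^ ℵ₀`.
-/

namespace Pool.Agent.Y577.AD.Kunen

open Set Cardinal Pool.Agent.Helper669.Forcing Pool.Agent.H458R4.Cohen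

section defs

variable {P : Type} [Preorder P]

/-- `φ iff ψ` -/
def fiff (φ ψ : Set P) : Set P := fand (fimp φ ψ) (fimp ψ φ)

/-- The named subset `x` of `ℕ` is contained in `y` up to a finite set: for some `k`, every
`n ≥ k` in `x` is in `y`. -/
def AlmostSub (x y : ℕ → Set P) : Set P :=
  fex fun k : ℕ => fall fun n : ℕ => fall fun _ : k ≤ n => fimp (meets (x n)) (meets (y n))

/-- In the extension there is a strictly increasing sequence modulo finite sets of subsets of `ℕ`
indexed by `Λ`. -/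
def HasChain (P : Type) [Preorder P] (Λ : Type) [LT Λ] : Set P :=
  fex fun A : Λ → ℕ → Set P => fall fun i => fall fun j => fall fun _ : i < j =>
    fand (AlmostSub (A i) (A j)) (fnot (AlmostSub (A j) (A i)))

/-- In the extension there is a map from `K` onto the set of all subsets of `M`. -/
def PowLe (P : Type) [Preorder P] (M K : Type) : Set P :=
  fex fun E : K → M → Set P => fall fun x : M → Set P => fex fun i : K => fall fun m : M =>
    fiff (meets (x m)) (meets (E i m))

/-- In the extension there are pairwise different subsets of `ℕ` indexed by `K`. -/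
def ManyReals (P : Type) [Preorder P] (K : Type) : Set P :=
  fex fun E : K → ℕ → Set P => fall fun i => fall fun j => fall fun _ : i ≠ j =>
    fnot (fall fun n => fiff (meets (E i n)) (meets (E j n)))

end defs

variable {K : Type}

/-! ### Restriction and permutations of conditions -/

open Classical in
/-- the restriction of a condition to a set of coordinates -/
noncomputable def restr (S : Set K) (q : Fn K) : Fn K :=
  ⟨q.g.filter fun y => y.1.1 ∈ S, fun a b b' h h' =>
    q.fn a b b' (Finset.mem_filter.1 h).1 (Finset.mem_filter.1 h').1⟩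

theorem mem_restr {S : Set K} {q : Fn K} {y : (K × ℕ) × Bool} :
    y ∈ (restr S q).g ↔ y ∈ q.g ∧ y.1.1 ∈ S := by
  classical
  simp [restr]

theorem le_restr (S : Set K) (q : Fn K) : q ≤ restr S q := fun _ hy => (mem_restr.1 hy).1

/-- the map of points induced by a map of the coordinates -/
def mv {I J : Type} (e : I → J) (y : (I × ℕ) × Bool) : (J × ℕ) × Bool := ((e y.1.1, y.1.2), y.2)

open Classical in
/-- the image of a condition under an involution of the coordinates -/
noncomputable def act (σ : K → K) (hσ : ∀ x, σ (σ x) = x) (q : Fn K) : Fn K :=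
  ⟨q.g.image (mv σ), by
    intro a b b' h h'
    obtain ⟨y, hy, hy'⟩ := Finset.mem_image.1 h
    obtain ⟨z, hz, hz'⟩ := Finset.mem_image.1 h'
    rcases y with ⟨⟨y1, y2⟩, y3⟩
    rcases z with ⟨⟨z1, z2⟩, z3⟩
    rcases a with ⟨a1, a2⟩
    simp only [mv, Prod.mk.injEq] at hy' hz'
    obtain ⟨⟨h1, rfl⟩, rfl⟩ := hy'
    obtain ⟨⟨h2, rfl⟩, rfl⟩ := hz'
    have h3 : y1 = z1 := by rw [← hσ y1, ← hσ z1, h1, h2]
    subst h3
    exact q.fn _ _ _ hy hz⟩

theorem act_g (σ : K → K) (hσ : ∀ x, σ (σ x) = x) (q : Fn K) [DecidableEq ((K × ℕ) × Bool)] :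
    (act σ hσ q).g = q.g.image (mv σ) := by
  ext y
  simp only [act, Finset.mem_image]

theorem act_act (σ : K → K) (hσ : ∀ x, σ (σ x) = x) (q : Fn K) : act σ hσ (act σ hσ q) = q := by
  classical
  apply ext_g
  rw [act_g, act_g, Finset.image_image]
  have h1 : mv σ ∘ mv σ = id := by
    funext y
    simp only [mv, Function.comp, hσ, id]
  rw [h1, Finset.image_id]

theorem act_le {σ : K → K} {hσ : ∀ x, σ (σ x) = x} {p q : Fn K} (h : p ≤ q) :
    act σ hσ p ≤ act σ hσ q := by
  classical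
  show (act σ hσ q).g ⊆ (act σ hσ p).g
  rw [act_g, act_g]
  exact Finset.image_subset_image h

theorem act_le_iff {σ : K → K} {hσ : ∀ x, σ (σ x) = x} {p q : Fn K} (h : p ≤ act σ hσ q) :
    act σ hσ p ≤ q := by
  have := act_le (hσ := hσ) h
  rwa [act_act] at this

theorem almostSub_act {σ : K → K} (hσ : ∀ x, σ (σ x) = x) {x y : ℕ → Set (Fn K)}
    (_h1 : ∀ n q, q ∈ meets (x n) → act σ hσ q ∈ meets (y n))
    (h2 : ∀ n q, q ∈ meets (y n) → act σ hσ q ∈ meets (x n)) {p : Fn K}
    (hp : p ∈ AlmostSub x y) : act σ hσ p ∈ AlmostSub y x := by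
  refine mem_fex.2 fun q hq => ?_
  obtain ⟨r, hr, k, hk⟩ := mem_fex.1 hp (act σ hσ q) (act_le_iff hq)
  refine ⟨act σ hσ r, act_le_iff hr, k, fun n hn => mem_fimp.2 fun q' hq' hy => ?_⟩
  obtain ⟨r', hr', hr''⟩ := mem_fimp.1 (hk n hn) (act σ hσ q') (act_le_iff hq') (h2 n q' hy)
  exact ⟨act σ hσ r', act_le_iff hr', h2 n r' hr''⟩

/-! ### Supports of names -/

theorem exists_not_of_notMem_meets {N : Set (Fn K)} {q : Fn K} (h : q ∉ meets N) :
    ∃ r ≤ q, r ∈ fnot (meets N) := by
  simp only [meets, Set.mem_ofPred_eq, not_forall] at h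
  obtain ⟨r, hr, h⟩ := h
  refine ⟨r, hr, fun s hs hs' => ?_⟩
  obtain ⟨t, ht, u, hu, htu⟩ := hs' s le_rfl
  exact h ⟨t, ht.trans hs, u, hu, htu⟩

theorem exists_supp (x : ℕ → Set (Fn K)) : ∃ S : Set K, S.Countable ∧
    ∀ n q, q ∈ meets (x n) → restr S q ∈ meets (x n) := by
  classical
  have hE : ∀ n, ∃ A ⊆ {r : Fn K | r ∈ meets (x n) ∨ r ∈ fnot (meets (x n))}, A.Countable ∧
      (∀ p, ∃ a ∈ A, Compat a p) ∧ ∀ a ∈ A, ∀ b ∈ A, Compat a b → a = b := by
    intro n
    apply exists_antichain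
    intro p
    by_cases hp : p ∈ meets (x n)
    · exact ⟨p, le_rfl, Or.inl hp⟩
    · obtain ⟨r, hr, hr'⟩ := exists_not_of_notMem_meets hp
      exact ⟨r, hr, Or.inr hr'⟩
  choose A hAE hAc hApre _ using hE
  refine ⟨⋃ n : ℕ, ⋃ a ∈ A n, (fun y : (K × ℕ) × Bool => y.1.1) '' (a.g : Set ((K × ℕ) × Bool)),
    Set.countable_iUnion fun n => (hAc n).biUnion fun a _ =>
      (Finset.countable_toSet _).image _, fun n q hq => ?_⟩
  set S := ⋃ n : ℕ, ⋃ a ∈ A n, (fun y : (K × ℕ) × Bool => y.1.1) ''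
    (a.g : Set ((K × ℕ) × Bool)) with hS
  by_contra hcon
  obtain ⟨r, hr, hr'⟩ := exists_not_of_notMem_meets hcon
  obtain ⟨a, ha, hc⟩ := hApre n r
  have hnot : a ∉ meets (x n) := by
    intro h
    obtain ⟨t, ht1, ht2⟩ := hc
    exact hr' t ht2 (down_meets _ _ h t ht1)
  have hanot : a ∈ fnot (meets (x n)) := (hAE n ha).resolve_left hnot
  have hc' : Compat a q := by
    rw [compat_iff] at hc ⊢
    intro y b b' hb hb'
    refine hc y b b' hb (hr (mem_restr.2 ⟨hb', ?_⟩))
    exact mem_iUnion.2 ⟨n, mem_biUnion ha ⟨(y, b), Finset.mem_coe.2 hb, rfl⟩⟩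
  obtain ⟨t, ht1, ht2⟩ := hc'
  exact hanot t ht1 (down_meets _ _ hq t ht2)

/-! ### Two indices with isomorphic data -/

theorem exists_pair {Λ K T : Type} (hT : #T ≤ 𝔠) (hΛ : 𝔠 < #Λ) (e : Λ → ℕ → K) (τ : Λ → T) :
    ∃ i j, i ≠ j ∧ τ i = τ j ∧ ∀ n m, e i n = e j m → e i m = e j m := by
  classical
  have hne : Nonempty Λ := by
    rw [← Cardinal.mk_ne_zero_iff]
    exact (Cardinal.continuum_pos.trans hΛ).ne'
  obtain ⟨i₀⟩ := hne
  let L : Type := Unit ⊕ (T × (Set ℕ × (ℕ → ℕ)))
  let β : L → Type := fun a => Sum.elim (fun _ => Empty) (fun _ => ℕ) a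
  have hL : #L ≤ 𝔠 := by
    have h1 : #L = 1 + #T * (𝔠 * 𝔠) := by
      simp [L, Cardinal.mk_sum, Cardinal.mk_prod]
    rw [h1, Cardinal.continuum_mul_self]
    calc 1 + #T * 𝔠 ≤ 𝔠 + 𝔠 * 𝔠 := add_le_add
            (Cardinal.one_le_aleph0.trans Cardinal.aleph0_le_continuum) (mul_le_mul' hT le_rfl)
      _ = 𝔠 := by rw [Cardinal.continuum_mul_self, Cardinal.continuum_add_self]
  have hW : #(WType β) ≤ 𝔠 := by
    refine WType.cardinalMk_le_of_le' ?_
    have h1 : ∀ a : L, (𝔠 : Cardinal.{0}) ^ Cardinal.lift.{0} #(β a) ≤ 𝔠 := by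
      intro a
      rcases a with z | y
      · have : #(β (Sum.inl z)) = 0 := Cardinal.mk_eq_zero Empty
        rw [Cardinal.lift_id, this, Cardinal.power_zero]
        exact Cardinal.one_le_aleph0.trans Cardinal.aleph0_le_continuum
      · have : #(β (Sum.inr y)) = ℵ₀ := Cardinal.mk_nat
        rw [Cardinal.lift_id, this, Cardinal.continuum_power_aleph0]
    refine (Cardinal.sum_le_sum _ (fun _ : L => (𝔠 : Cardinal.{0})) h1).trans ?_
    rw [Cardinal.sum_const']
    exact (mul_le_mul' hL le_rfl).trans Cardinal.continuum_mul_self.le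
  let ev : WType β → Λ := WType.elim Λ (fun x =>
    match x with
    | ⟨Sum.inl _, _⟩ => i₀
    | ⟨Sum.inr y, f⟩ => if h : ∃ j : Λ, τ j = y.1 ∧ ∀ n ∈ y.2.1, e (f n) (y.2.2 n) = e j n
        then h.choose else i₀)
  have ev2 : ∀ y (f : ℕ → WType β), ev (WType.mk (Sum.inr y) f) =
      if h : ∃ j : Λ, τ j = y.1 ∧ ∀ n ∈ y.2.1, e (ev (f n)) (y.2.2 n) = e j n
        then h.choose else i₀ := fun y f => rfl
  have w₀ : WType β := WType.mk (Sum.inl ()) Empty.elim
  obtain ⟨j, hj⟩ : ∃ j, j ∉ Set.range ev := by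
    by_contra hcon
    push Not at hcon
    have : Function.Surjective ev := hcon
    exact absurd hΛ (not_lt.2 ((Cardinal.mk_le_of_surjective this).trans hW))
  have hs : ∀ m, ∃ w : WType β, ∃ k : ℕ, (∃ w' k', e (ev w') k' = e j m) → e (ev w) k = e j m := by
    intro m
    by_cases h : ∃ w' k', e (ev w') k' = e j m
    · obtain ⟨w, k, h⟩ := h
      exact ⟨w, k, fun _ => h⟩
    · exact ⟨w₀, 0, fun h' => absurd h' h⟩
  choose s k hsk using hs
  have e2 := ev2 (τ j, {m | ∃ w' k', e (ev w') k' = e j m}, k) s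
  have hex : ∃ j' : Λ, τ j' = τ j ∧ ∀ n ∈ {m | ∃ w' k', e (ev w') k' = e j m},
      e (ev (s n)) (k n) = e j' n := ⟨j, rfl, fun n hn => hsk n hn⟩
  rw [dif_pos hex] at e2
  have h3 := hex.choose_spec
  set i := hex.choose with hi
  refine ⟨i, j, fun h => hj ⟨_, e2.trans h⟩, h3.1, fun n m hnm => ?_⟩
  have hm : m ∈ {m | ∃ w' k', e (ev w') k' = e j m} :=
    ⟨WType.mk (Sum.inr (τ j, {m | ∃ w' k', e (ev w') k' = e j m}, k)) s, n,
      (congrArg (fun i => e i n) e2).trans hnm⟩
  rw [← h3.2 m hm]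
  exact hsk m hm

/-! ### No long chains -/

theorem no_chain [Nonempty K] {Λ : Type} [LinearOrder Λ] (hΛ : 𝔠 < #Λ) (p : Fn K) :
    p ∈ fnot (HasChain (Fn K) Λ) := by
  classical
  intro q _ hq
  obtain ⟨r, _, A, hA⟩ := mem_fex.1 hq q le_rfl
  obtain ⟨k₀⟩ := ‹Nonempty K›
  -- supports
  choose S hSc hS using fun i : Λ => exists_supp (A i)
  have hd : ∃ d : ℕ → K, ∀ y ∈ r.g, ∃ n, d n = y.1.1 := by
    obtain ⟨d, hd⟩ := Set.Countable.exists_eq_range
      (s := insert k₀ ((fun y : (K × ℕ) × Bool => y.1.1) '' (r.g : Set ((K × ℕ) × Bool))))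
      (((Finset.countable_toSet _).image _).insert k₀) (Set.insert_nonempty _ _)
    refine ⟨d, fun y hy => ?_⟩
    have h1 : y.1.1 ∈ Set.range d := by
      rw [← hd]
      exact Or.inr ⟨y, Finset.mem_coe.2 hy, rfl⟩
    exact h1
  obtain ⟨d, hd⟩ := hd
  have he : ∀ i : Λ, ∃ e : ℕ → K, (∀ n, e (2 * n) = d n) ∧ ∀ x ∈ S i, ∃ n, e n = x := by
    intro i
    obtain ⟨f, hf⟩ := Set.Countable.exists_eq_range (s := insert k₀ (S i))
      ((hSc i).insert k₀) (Set.insert_nonempty _ _)
    refine ⟨fun n => if n % 2 = 0 then d (n / 2) else f (n / 2), fun n => ?_, fun x hx => ?_⟩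
    · have h1 : 2 * n % 2 = 0 := by omega
      have h2 : 2 * n / 2 = n := by omega
      simp only [h1, h2, if_true]
    · have h1 : x ∈ Set.range f := by
        rw [← hf]
        exact Or.inr hx
      obtain ⟨n, hn⟩ := h1
      refine ⟨2 * n + 1, ?_⟩
      have h1 : ¬ (2 * n + 1) % 2 = 0 := by omega
      have h2 : (2 * n + 1) / 2 = n := by omega
      simp only [if_neg h1, h2]
      exact hn
  choose e hed heS using he
  -- the types
  let T : Type := (ℕ → Set (Finset ((ℕ × ℕ) × Bool))) × Set (ℕ × ℕ)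
  have hT : #T ≤ 𝔠 := by
    have h1 : #(Finset ((ℕ × ℕ) × Bool)) = ℵ₀ := Cardinal.mk_eq_aleph0 _
    have h2 : #(ℕ × ℕ) = ℵ₀ := Cardinal.mk_eq_aleph0 _
    have h3 : #T = (2 ^ #(Finset ((ℕ × ℕ) × Bool))) ^ ℵ₀ * 2 ^ #(ℕ × ℕ) := by
      simp only [T, Cardinal.mk_prod, Cardinal.lift_id, Cardinal.mk_pi, Cardinal.mk_set,
        Cardinal.prod_const', Cardinal.mk_nat]
    rw [h3, h1, h2, Cardinal.two_power_aleph0, Cardinal.continuum_power_aleph0,
      Cardinal.continuum_mul_self]
  let τ : Λ → T := fun i => (fun n => {t | ∃ q : Fn K, q.g = t.image (mv (e i)) ∧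
    q ∈ meets (A i n)}, {x | e i x.1 = e i x.2})
  obtain ⟨i, j, hij, hτ, hroot⟩ := exists_pair hT hΛ e τ
  have hcode : ∀ n, ∀ t : Finset ((ℕ × ℕ) × Bool), (∃ q : Fn K, q.g = t.image (mv (e i)) ∧
      q ∈ meets (A i n)) ↔ (∃ q : Fn K, q.g = t.image (mv (e j)) ∧ q ∈ meets (A j n)) := by
    intro n t
    have h1 := congrArg Prod.fst hτ
    have h2 := congrFun h1 n
    exact Set.ext_iff.1 h2 t
  have hpat : ∀ n m, e i n = e i m ↔ e j n = e j m := by
    intro n m
    have h1 := congrArg Prod.snd hτ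
    exact Set.ext_iff.1 h1 (n, m)
  -- the involution
  let σ : K → K := fun x => if h : ∃ n, e i n = x then e j h.choose
    else if h : ∃ n, e j n = x then e i h.choose else x
  have hσi : ∀ n, σ (e i n) = e j n := by
    intro n
    have h : ∃ m, e i m = e i n := ⟨n, rfl⟩
    have h1 : σ (e i n) = e j h.choose := dif_pos h
    rw [h1]
    exact (hpat _ _).1 h.choose_spec
  have hσj : ∀ n, σ (e j n) = e i n := by
    intro n
    by_cases h : ∃ m, e i m = e j n
    · obtain ⟨m, hm⟩ := h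
      have h1 : e i n = e j n := hroot m n hm
      rw [← h1, hσi, h1]
    · have h' : ∃ m, e j m = e j n := ⟨n, rfl⟩
      have h1 : σ (e j n) = e i h'.choose := by
        simp only [σ]
        rw [dif_neg h, dif_pos h']
      rw [h1]
      exact (hpat _ _).2 h'.choose_spec
  have hσ : ∀ x, σ (σ x) = x := by
    intro x
    by_cases h : ∃ n, e i n = x
    · obtain ⟨n, rfl⟩ := h
      rw [hσi, hσj]
    · by_cases h' : ∃ n, e j n = x
      · obtain ⟨n, rfl⟩ := h'
        rw [hσj, hσi]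
      · have h1 : σ x = x := by
          simp only [σ]
          rw [dif_neg h, dif_neg h']
        rw [h1, h1]
  have hact : act σ hσ r = r := by
    apply ext_g
    rw [act_g]
    have h1 : ∀ y ∈ r.g, mv σ y = id y := by
      intro y hy
      obtain ⟨n, hn⟩ := hd y hy
      have h2 : σ y.1.1 = y.1.1 := by
        rw [← hn, ← hed i n, hσi, hed j n, hed i n]
      simp only [mv, h2, id]
    rw [Finset.image_congr (g := id) (fun y hy => h1 y (Finset.mem_coe.1 hy)), Finset.image_id]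
  -- transfer
  have key : ∀ a b : Λ, (∀ n, σ (e a n) = e b n) →
      (∀ n, ∀ t : Finset ((ℕ × ℕ) × Bool), (∃ q : Fn K, q.g = t.image (mv (e a)) ∧
        q ∈ meets (A a n)) → (∃ q : Fn K, q.g = t.image (mv (e b)) ∧ q ∈ meets (A b n))) →
      ∀ n q, q ∈ meets (A a n) → act σ hσ q ∈ meets (A b n) := by
    intro a b hab hcab n q hq
    have h1 := hS a n q hq
    let inv : K → ℕ := fun x => if h : ∃ n, e a n = x then h.choose else 0
    have hinv : ∀ x ∈ S a, e a (inv x) = x := by
      intro x hx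
      have h := heS a x hx
      have h2 : inv x = h.choose := dif_pos h
      rw [h2]
      exact h.choose_spec
    let t : Finset ((ℕ × ℕ) × Bool) := (restr (S a) q).g.image (mv inv)
    have ht : (restr (S a) q).g = t.image (mv (e a)) := by
      simp only [t, Finset.image_image]
      symm
      have h2 : ∀ y ∈ (restr (S a) q).g, (mv (e a) ∘ mv inv) y = id y := by
        intro y hy
        have h3 := hinv y.1.1 (mem_restr.1 hy).2
        simp only [Function.comp, mv, h3, id]
      rw [Finset.image_congr (g := id) (fun y hy => h2 y (Finset.mem_coe.1 hy)), Finset.image_id]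
    obtain ⟨q'', hq1, hq2⟩ := hcab n t ⟨_, ht, h1⟩
    have h4 : act σ hσ (restr (S a) q) = q'' := by
      apply ext_g
      rw [act_g, ht, hq1, Finset.image_image]
      refine Finset.image_congr fun y _ => ?_
      simp only [Function.comp, mv, hab]
    rw [← h4] at hq2
    exact down_meets _ _ hq2 _ (act_le (le_restr _ _))
  have k1 := key i j hσi (fun n t => (hcode n t).1)
  have k2 := key j i hσj (fun n t => (hcode n t).2)
  rcases lt_or_gt_of_ne hij with hlt | hlt
  · obtain ⟨h1, h2⟩ := hA i j hlt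
    have h3 := almostSub_act hσ k1 k2 h1
    rw [hact] at h3
    exact h2 r le_rfl h3
  · obtain ⟨h1, h2⟩ := hA j i hlt
    have h3 := almostSub_act hσ k2 k1 h1
    rw [hact] at h3
    exact h2 r le_rfl h3

end Pool.Agent.Y577.AD.Kunen
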