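import Mathlib

set_option autoImplicit false

/-!
# Families of open sets in `N*` with compact pairwise intersections

If there is no strictly increasing sequence of length `μ⁺` of subsets of `ℕ` modulo finite sets,
then each family of open non-compact subsets of `N*` with pairwise compact intersections has
cardinality at most `2 ^ μ`.
-/

namespace Pool.Agent.Y577.AD.Top

open Set Cardinal

/-- The space of nonprincipal ultrafilters on the natural numbers. -/
abbrev NStar : Type := {p : Ultrafilter ℕ // ∀ n : ℕ, ({n} : Set ℕ) ∉ p}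

/-- basic clopen sets -/
def nbhd (y : Set ℕ) : Set NStar := {p | y ∈ p.1}

theorem fin_notMem (p : NStar) (s : Set ℕ) (hs : s.Finite) : s ∉ p.1 := by
  intro hsU
  rw [← Ultrafilter.mem_coe] at hsU
  have := (Ultrafilter.finite_biUnion_mem_iff (f := p.1) hs (s := fun n => ({n} : Set ℕ))).mp (by
    simpa using hsU)
  obtain ⟨n, _, hn⟩ := this
  exact p.2 n hn

theorem mem_of_diff_finite (p : NStar) {s t : Set ℕ} (hs : s ∈ p.1) (h : (s \ t).Finite) :
    t ∈ p.1 := by
  have h1 : (s \ t)ᶜ ∈ p.1 := Ultrafilter.compl_mem_iff_notMem.mpr (fin_notMem p _ h)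
  refine Filter.mem_of_superset (Filter.inter_mem hs h1) ?_
  rintro x ⟨hx1, hx2⟩
  by_contra hcon
  exact hx2 ⟨hx1, hcon⟩

theorem nbhd_open (y : Set ℕ) : IsOpen (nbhd y) :=
  (ultrafilter_isOpen_basic y).preimage continuous_subtype_val

theorem exists_nbhd {U : Set NStar} (hU : IsOpen U) {p : NStar} (hp : p ∈ U) :
    ∃ y, p ∈ nbhd y ∧ nbhd y ⊆ U := by
  obtain ⟨O, hO, rfl⟩ := isOpen_induced_iff.mp hU
  obtain ⟨B, ⟨y, rfl⟩, hpB, hB⟩ :=
    ultrafilterBasis_is_basis.exists_subset_of_mem_open (a := p.1) (u := O) hp hO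
  exact ⟨y, hpB, fun q hq => hB hq⟩

theorem nbhd_nonempty {y : Set ℕ} (hy : y.Infinite) : (nbhd y).Nonempty := by
  let f : Filter ℕ := Filter.cofinite ⊓ Filter.principal y
  have hf : f.NeBot := by
    rw [Filter.inf_principal_neBot_iff]
    intro U hU
    by_contra hcon
    rw [Set.not_nonempty_iff_eq_empty] at hcon
    have h1 : (Uᶜ).Finite := hU
    apply hy
    refine h1.subset ?_
    intro x hx hxU
    have : x ∈ U ∩ y := ⟨hxU, hx⟩
    rw [hcon] at this
    exact this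
  have hle := Ultrafilter.of_le f
  refine ⟨⟨Ultrafilter.of f, ?_⟩, ?_⟩
  · intro n hn
    have h1 : ({n} : Set ℕ)ᶜ ∈ Ultrafilter.of f :=
      (hle.trans inf_le_left) (Set.finite_singleton n).compl_mem_cofinite
    exact (Ultrafilter.compl_mem_iff_notMem.mp h1) hn
  · exact (hle.trans inf_le_right) (Filter.mem_principal_self y)

/-- A compact open set is basic. -/
theorem compact_open {U : Set NStar} (hU : IsOpen U) (hc : IsCompact U) : ∃ z, U = nbhd z := by
  have hex : ∀ p : NStar, ∃ y, p ∈ U → (p ∈ nbhd y ∧ nbhd y ⊆ U) := by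
    intro p
    by_cases hp : p ∈ U
    · obtain ⟨y, h1, h2⟩ := exists_nbhd hU hp
      exact ⟨y, fun _ => ⟨h1, h2⟩⟩
    · exact ⟨∅, fun h => absurd h hp⟩
  choose y hy using hex
  obtain ⟨t, ht, hcov⟩ := hc.elim_nhds_subcover (fun p => nbhd (y p))
    (fun p hp => (nbhd_open _).mem_nhds (hy p hp).1)
  refine ⟨⋃ p ∈ t, y p, ?_⟩
  apply Set.Subset.antisymm
  · intro q hq
    have := hcov hq
    simp only [Set.mem_iUnion] at this
    obtain ⟨p, hp, hqp⟩ := this
    exact Filter.mem_of_superset hqp (Set.subset_biUnion_of_mem (u := fun p => y p) hp)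
  · intro q hq
    have h1 : (⋃ p ∈ (t : Set NStar), y p) ∈ q.1 := hq
    have := (Ultrafilter.finite_biUnion_mem_iff (f := q.1) t.finite_toSet
      (s := fun p => y p)).mp h1
    obtain ⟨p, hp, hqp⟩ := this
    exact (hy p (ht p hp)).2 hqp

theorem finite_of_nbhd_subset {y z : Set ℕ} (h : nbhd y ⊆ nbhd z) : (y \ z).Finite := by
  by_contra hcon
  obtain ⟨q, hq⟩ := nbhd_nonempty (Set.not_finite.mp hcon)
  have h1 : q ∈ nbhd z := h (Filter.mem_of_superset hq Set.sdiff_subset)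
  obtain ⟨x, hx1, hx2⟩ := Ultrafilter.nonempty_of_mem (Filter.inter_mem hq h1)
  exact hx1.2 hx2

theorem nbhd_subset_of_finite {y z : Set ℕ} (h : (y \ z).Finite) : nbhd y ⊆ nbhd z :=
  fun q hq => mem_of_diff_finite q hq h

/-- There is no strictly increasing sequence modulo finite sets of length `μ⁺` of subsets
of `ℕ`. -/
def NoChain (μ : Cardinal.{0}) : Prop :=
  ¬ ∃ A : (Order.succ μ).ord.ToType → Set ℕ,
    ∀ i j, i < j → (A i \ A j).Finite ∧ ¬ (A j \ A i).Finite

/-- long chains from strict upper bounds -/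
theorem exists_chain {X : Type} (r : X → X → Prop) (μ : Cardinal.{0})
    (h : ∀ S : Set X, #S ≤ μ → ∃ x, ∀ y ∈ S, r y x) :
    ∃ f : (Order.succ μ).ord.ToType → X, ∀ i j, i < j → r (f i) (f j) := by
  classical
  have hseg : ∀ j : (Order.succ μ).ord.ToType, #(Set.Iio j) ≤ μ := by
    intro j
    have h1 : #(Set.Iio j) < #((Order.succ μ).ord.ToType) :=
      Cardinal.mk_Iio_lt j (by simp)
    rw [Cardinal.mk_ord_toType] at h1
    exact Order.lt_succ_iff.1 h1
  have hS : ∀ (j : (Order.succ μ).ord.ToType) (ih : ∀ i, i < j → X),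
      #({x | ∃ (i : (Order.succ μ).ord.ToType) (hi : i < j), ih i hi = x} : Set X) ≤ μ := by
    intro j ih
    refine le_trans ?_ (hseg j)
    refine Cardinal.mk_le_of_surjective (f := fun i : Set.Iio j => ⟨ih i.1 i.2, i.1, i.2, rfl⟩) ?_
    rintro ⟨x, i, hi, rfl⟩
    exact ⟨⟨i, hi⟩, rfl⟩
  let F : ∀ j : (Order.succ μ).ord.ToType, (∀ i, i < j → X) → X := fun j ih =>
    (h _ (hS j ih)).choose
  have hF : ∀ (j : (Order.succ μ).ord.ToType) (ih : ∀ i, i < j → X), ∀ i (hi : i < j),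
      r (ih i hi) (F j ih) := fun j ih i hi => (h _ (hS j ih)).choose_spec _ ⟨i, hi, rfl⟩
  have wf : WellFounded (fun a b : (Order.succ μ).ord.ToType => a < b) := wellFounded_lt
  refine ⟨wf.fix F, fun i j hij => ?_⟩
  rw [wf.fix_eq F j]
  exact hF j (fun y _ => wf.fix F y) i hij

theorem card_le {μ : Cardinal.{0}} (hμ : ℵ₀ ≤ μ) (hch : NoChain μ) (𝒜 : Set (Set NStar))
    (hopen : ∀ U ∈ 𝒜, IsOpen U) (hnc : ∀ U ∈ 𝒜, ¬ IsCompact U)
    (had : ∀ U ∈ 𝒜, ∀ V ∈ 𝒜, U ≠ V → IsCompact (U ∩ V)) : #𝒜 ≤ 2 ^ μ := by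
  classical
  rcases 𝒜.eq_empty_or_nonempty with h0 | h0
  · rw [h0]; simp
  obtain ⟨U₀, hU₀⟩ := h0
  let M : Type := μ.out
  have hM : #M = μ := Cardinal.mk_out μ
  have hMne : Nonempty M := by
    rw [← Cardinal.mk_ne_zero_iff, hM]
    exact (Cardinal.aleph0_pos.trans_le hμ).ne'
  obtain ⟨m₀⟩ := hMne
  let L : Type := Set ℕ ⊕ (M → Set ℕ)
  let β : L → Type := fun a => Sum.elim (fun _ => Empty) (fun _ => M) a
  have h2μ : ℵ₀ ≤ (2 : Cardinal.{0}) ^ μ := hμ.trans (Cardinal.cantor μ).le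
  have hL : #L ≤ 2 ^ μ := by
    have h1 : #L = #(Set ℕ) + #(M → Set ℕ) := Cardinal.add_def _ _ |>.symm
    have h2 : #(Set ℕ) = 2 ^ ℵ₀ := by rw [Cardinal.mk_set]; simp
    have h3 : #(M → Set ℕ) = (2 ^ ℵ₀) ^ μ := by
      rw [← hM, ← h2]
      exact (Cardinal.power_def _ _).symm
    rw [h1, h2, h3, ← Cardinal.power_mul, Cardinal.aleph0_mul_eq hμ]
    exact (add_le_add (Cardinal.power_le_power_left two_ne_zero hμ) le_rfl).trans
      (Cardinal.add_eq_self h2μ).le
  have hW : #(WType β) ≤ 2 ^ μ := by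
    refine WType.cardinalMk_le_of_le' ?_
    have h1 : ∀ a : L, ((2 : Cardinal.{0}) ^ μ) ^ Cardinal.lift.{0} #(β a) ≤ 2 ^ μ := by
      intro a
      rcases a with z | y
      · have : #(β (Sum.inl z)) = 0 := Cardinal.mk_eq_zero Empty
        rw [Cardinal.lift_id, this, Cardinal.power_zero]
        exact Cardinal.one_le_aleph0.trans h2μ
      · have : #(β (Sum.inr y)) = μ := hM
        rw [Cardinal.lift_id, this, ← Cardinal.power_mul, Cardinal.mul_eq_self hμ]
    refine (Cardinal.sum_le_sum _ (fun _ : L => (2 : Cardinal.{0}) ^ μ) h1).trans ?_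
    rw [Cardinal.sum_const']
    exact (mul_le_mul' hL le_rfl).trans (Cardinal.mul_eq_self h2μ).le
  -- the evaluation
  let ev : WType β → Set NStar := WType.elim (Set NStar) (fun x =>
    match x with
    | ⟨Sum.inl z, _⟩ => if h : ∃ W ∈ 𝒜, nbhd z ⊆ W then h.choose else U₀
    | ⟨Sum.inr y, f⟩ => if h : ∃ W ∈ 𝒜, ∀ m : M, W ∩ f m = nbhd (y m) then h.choose else U₀)
  have ev1 : ∀ z f, ev (WType.mk (Sum.inl z) f) =
      if h : ∃ W ∈ 𝒜, nbhd z ⊆ W then h.choose else U₀ := fun z f => rfl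
  have ev2 : ∀ y (f : M → WType β), ev (WType.mk (Sum.inr y) f) =
      if h : ∃ W ∈ 𝒜, ∀ m : M, W ∩ ev (f m) = nbhd (y m) then h.choose else U₀ := fun y f => rfl
  have hev : ∀ w, ev w ∈ 𝒜 := by
    intro w
    rcases w with ⟨a, f⟩
    rcases a with z | y
    · have e := ev1 z f
      split_ifs at e with h
      · exact e ▸ h.choose_spec.1
      · exact e ▸ hU₀
    · have e := ev2 y f
      split_ifs at e with h
      · exact e ▸ h.choose_spec.1
      · exact e ▸ hU₀
  have p1 : ∀ z, (∃ W ∈ 𝒜, nbhd z ⊆ W) → ∃ w, nbhd z ⊆ ev w := by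
    intro z h
    have e := ev1 z Empty.elim
    rw [dif_pos h] at e
    refine ⟨WType.mk (Sum.inl z) Empty.elim, ?_⟩
    exact e ▸ h.choose_spec.2
  have p2 : ∀ (s : M → WType β) (y : M → Set ℕ), (∃ W ∈ 𝒜, ∀ m : M, W ∩ ev (s m) = nbhd (y m)) →
      ∃ w, ∀ m, ev w ∩ ev (s m) = nbhd (y m) := by
    intro s y h
    have e := ev2 y s
    rw [dif_pos h] at e
    refine ⟨WType.mk (Sum.inr y) s, ?_⟩
    intro m
    exact e ▸ h.choose_spec.2 m
  -- everything is in the closure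
  suffices hall : 𝒜 ⊆ Set.range ev by
    exact (Cardinal.mk_le_mk_of_subset hall).trans (Cardinal.mk_range_le.trans hW)
  intro U hU
  by_contra hUr
  have hne : ∀ w, U ≠ ev w := fun w h => hUr ⟨w, h.symm⟩
  have hcl : ∀ w, ∃ z, U ∩ ev w = nbhd z := fun w =>
    compact_open ((hopen U hU).inter (hopen _ (hev w))) (had U hU _ (hev w) (hne w))
  choose z hz using hcl
  have hdir : ∀ s : M → WType β, ∃ w, ∀ m, U ∩ ev (s m) ⊆ U ∩ ev w := by
    intro s
    obtain ⟨w, hw⟩ := p2 s (fun m => z (s m)) ⟨U, hU, fun m => hz (s m)⟩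
    refine ⟨w, fun m p hp => ⟨hp.1, ?_⟩⟩
    have h1 : p ∈ ev w ∩ ev (s m) := by
      rw [hw m, ← hz (s m)]
      exact hp
    exact h1.1
  by_cases hmax : ∃ w, ∀ v, U ∩ ev v ⊆ U ∩ ev w
  · obtain ⟨w, hw⟩ := hmax
    have hcomp : IsCompact (U ∩ ev w) := had U hU _ (hev w) (hne w)
    have hnsub : ¬ U ⊆ U ∩ ev w := by
      intro h
      have : U ∩ ev w = U := Set.Subset.antisymm Set.inter_subset_left h
      rw [this] at hcomp
      exact hnc U hU hcomp
    obtain ⟨p, hp, hp'⟩ := Set.not_subset.1 hnsub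
    obtain ⟨y, hy1, hy2⟩ := exists_nbhd ((hopen U hU).inter hcomp.isClosed.isOpen_compl) ⟨hp, hp'⟩
    obtain ⟨v, hv⟩ := p1 y ⟨U, hU, fun q hq => (hy2 hq).1⟩
    exact hp' (hw v ⟨hp, hv hy1⟩)
  · push Not at hmax
    apply hch
    obtain ⟨f, hf⟩ := exists_chain (fun w v : WType β => U ∩ ev w ⊆ U ∩ ev v ∧
      ¬ U ∩ ev v ⊆ U ∩ ev w) μ (by
        intro S hS
        -- an upper bound
        obtain ⟨w, hw⟩ : ∃ w, ∀ y ∈ S, U ∩ ev y ⊆ U ∩ ev w := by
          rcases S.eq_empty_or_nonempty with h | ⟨y₀, hy₀⟩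
          · obtain ⟨w, -⟩ := hdir fun _ => WType.mk (Sum.inl ∅) Empty.elim
            exact ⟨w, fun y hy => by rw [h] at hy; exact absurd hy (Set.notMem_empty _)⟩
          · rw [← hM] at hS
            obtain ⟨e⟩ : Nonempty (S ↪ M) := Cardinal.le_def _ _ |>.1 hS
            have : Nonempty S := ⟨⟨y₀, hy₀⟩⟩
            obtain ⟨w, hw⟩ := hdir fun m => (Function.invFun e m).1
            refine ⟨w, fun y hy => ?_⟩
            have h1 := hw (e ⟨y, hy⟩)
            rw [Function.leftInverse_invFun e.injective] at h1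
            exact h1
        obtain ⟨v, hv⟩ := hmax w
        -- above both
        have hinf : ∃ m₁ : M, m₁ ≠ m₀ := by
          have : Infinite M := by
            rw [Cardinal.infinite_iff, hM]; exact hμ
          exact exists_ne m₀
        obtain ⟨m₁, hm₁⟩ := hinf
        obtain ⟨x, hx⟩ := hdir fun m => if m = m₀ then w else v
        have hx0 := hx m₀
        have hx1 := hx m₁
        simp only [if_true] at hx0
        rw [if_neg hm₁] at hx1
        refine ⟨x, fun y hy => ⟨(hw y hy).trans hx0, fun h => ?_⟩⟩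
        exact hv ((hx1.trans h).trans (hw y hy)))
    refine ⟨fun i => z (f i), fun i j hij => ?_⟩
    obtain ⟨h1, h2⟩ := hf i j hij
    rw [hz, hz] at h1 h2
    exact ⟨finite_of_nbhd_subset h1, fun h => h2 (nbhd_subset_of_finite h)⟩

end Pool.Agent.Y577.AD.Top
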